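import Mathlib

/-!
# Weighted means of bounded sequences with fully monotonic weights

Core construction: `ℓ n = ∑ j, ε_j (1 - ε_j)^n` where `ε_{j+1} ≤ ε_j / 2`.
Sequences are indexed by `ℕ` starting at `0`.
-/

open Filter Topology Finset

namespace Pool.Agent.Q161.WMeans

/-- The weighted means of `s` with weights `ℓ`. -/
noncomputable def wmean (s ℓ : ℕ → ℝ) (n : ℕ) : ℝ :=
  (∑ i ∈ range (n + 1), ℓ i * s i) / ∑ i ∈ range (n + 1), ℓ i

/-- `ℓ` is admissible for `s`, with limit `L` of the weighted means. -/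
def AdmissibleWithLimit (s ℓ : ℕ → ℝ) (L : ℝ) : Prop :=
  (∀ n, 0 < ℓ n) ∧ Tendsto (fun n => ∑ i ∈ range n, ℓ i) atTop atTop ∧
    Tendsto (wmean s ℓ) atTop (𝓝 L)

/-- The difference operator. -/
def diff (f : ℕ → ℝ) (n : ℕ) : ℝ := f n - f (n + 1)

/-- Full monotonicity: all the iterated differences are nonnegative. -/
def FullyMonotonic (ℓ : ℕ → ℝ) : Prop := ∀ k : ℕ, 1 ≤ k → ∀ n, 0 ≤ diff^[k] ℓ n

/-- The Abel mean `(1 - t) ∑ t^i s_i` with `t = 1 - e`. -/
noncomputable def abelMean (s : ℕ → ℝ) (e : ℝ) : ℝ := e * ∑' i, (1 - e) ^ i * s i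

/-- Data for the construction. -/
structure Lac (ε : ℕ → ℝ) : Prop where
  pos : ∀ j, 0 < ε j
  lt_one : ∀ j, ε j < 1
  half : ∀ j, ε (j + 1) ≤ ε j / 2

/-- The weights. -/
noncomputable def wt (ε : ℕ → ℝ) (n : ℕ) : ℝ := ∑' j, ε j * (1 - ε j) ^ n

variable {ε : ℕ → ℝ} (h : Lac ε)

include h in
lemma Lac.geom (j : ℕ) : ε j ≤ (1 / 2) ^ j := by
  induction j with
  | zero => simpa using (h.lt_one 0).le
  | succ j ih =>
    have := h.half j
    rw [pow_succ]; linarith

include h in
lemma Lac.summable : Summable ε :=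
  Summable.of_nonneg_of_le (fun j => (h.pos j).le) h.geom summable_geometric_two

include h in
lemma Lac.tpos (j : ℕ) : 0 < 1 - ε j := by linarith [h.lt_one j]

include h in
lemma Lac.tle (j n : ℕ) : (1 - ε j) ^ n ≤ 1 :=
  pow_le_one₀ (h.tpos j).le (by linarith [h.pos j])

include h in
lemma Lac.summable_k (k n : ℕ) : Summable fun j => ε j ^ (k + 1) * (1 - ε j) ^ n := by
  refine Summable.of_nonneg_of_le (fun j => ?_) (fun j => ?_) h.summable
  · have := h.pos j; have := h.tpos j; positivity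
  · have h1 := h.tle j n
    have h2 : ε j ^ (k + 1) ≤ ε j := by
      rw [pow_succ]
      have : ε j ^ k ≤ 1 := pow_le_one₀ (h.pos j).le (h.lt_one j).le
      have := h.pos j
      nlinarith
    have h3 : 0 ≤ ε j ^ (k + 1) := by have := h.pos j; positivity
    calc ε j ^ (k + 1) * (1 - ε j) ^ n ≤ ε j ^ (k + 1) * 1 := by gcongr
      _ ≤ ε j := by linarith

include h in
lemma Lac.diff_iter (k : ℕ) : ∀ n, diff^[k] (wt ε) n = ∑' j, ε j ^ (k + 1) * (1 - ε j) ^ n := by
  induction k with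
  | zero => intro n; simp [wt]
  | succ k ih =>
    intro n
    rw [Function.iterate_succ_apply', diff, ih n, ih (n + 1),
      ← (h.summable_k k n).tsum_sub (h.summable_k k (n + 1))]
    congr 1
    funext j
    ring

include h in
lemma Lac.fullyMonotonic : FullyMonotonic (wt ε) := by
  intro k _ n
  rw [h.diff_iter]
  apply tsum_nonneg
  intro j
  have := h.pos j; have := h.tpos j; positivity

include h in
lemma Lac.wt_pos (n : ℕ) : 0 < wt ε n := by
  have hs := h.summable_k 0 n
  simp only [zero_add, pow_one] at hs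
  exact hs.tsum_pos (fun j => by have := h.pos j; have := h.tpos j; positivity) 0
    (by have := h.pos 0; have := h.tpos 0; positivity)

/-- `B_j(n) = ε_j ∑_{i<n} t_j^i r_i`. -/
noncomputable def bb (ε : ℕ → ℝ) (r : ℕ → ℝ) (j n : ℕ) : ℝ :=
  ε j * ∑ i ∈ range n, (1 - ε j) ^ i * r i

lemma geom_sum' {e : ℝ} (n : ℕ) : e * ∑ i ∈ range n, (1 - e) ^ i = 1 - (1 - e) ^ n := by
  have := geom_sum_mul_neg (1 - e) n
  rw [← this]; ring

include h in
lemma Lac.bb_le {r : ℕ → ℝ} {M : ℝ} (hr : ∀ i, |r i| ≤ M) (j n : ℕ) :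
    |bb ε r j n| ≤ M * (1 - (1 - ε j) ^ n) := by
  unfold bb
  rw [abs_mul, abs_of_pos (h.pos j)]
  have h1 : |∑ i ∈ range n, (1 - ε j) ^ i * r i| ≤ ∑ i ∈ range n, (1 - ε j) ^ i * M := by
    refine (abs_sum_le_sum_abs _ _).trans ?_
    apply sum_le_sum
    intro i _
    rw [abs_mul, abs_of_pos (pow_pos (h.tpos j) i)]
    exact mul_le_mul_of_nonneg_left (hr i) (pow_pos (h.tpos j) i).le
  calc ε j * |∑ i ∈ range n, (1 - ε j) ^ i * r i|
      ≤ ε j * ∑ i ∈ range n, (1 - ε j) ^ i * M :=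
        mul_le_mul_of_nonneg_left h1 (h.pos j).le
    _ = M * (ε j * ∑ i ∈ range n, (1 - ε j) ^ i) := by rw [← sum_mul]; ring
    _ = _ := by rw [geom_sum']

include h in
lemma Lac.summable_r {r : ℕ → ℝ} {M : ℝ} (hr : ∀ i, |r i| ≤ M) (j : ℕ) :
    Summable fun i => (1 - ε j) ^ i * r i := by
  have hg : Summable fun i => (1 - ε j) ^ i * M :=
    (summable_geometric_of_lt_one (h.tpos j).le (by linarith [h.pos j])).mul_right M
  refine Summable.of_norm_bounded hg (fun i => ?_)
  rw [Real.norm_eq_abs, abs_mul, abs_of_pos (pow_pos (h.tpos j) i)]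
  exact mul_le_mul_of_nonneg_left (hr i) (pow_pos (h.tpos j) i).le

include h in
lemma Lac.bb_sub_le {r : ℕ → ℝ} {M : ℝ} (hr : ∀ i, |r i| ≤ M) (j n : ℕ) :
    |bb ε r j n| ≤ |abelMean r (ε j)| + M * (1 - ε j) ^ n := by
  have hs := h.summable_r hr j
  have hsplit := hs.sum_add_tsum_nat_add n
  have h1 : bb ε r j n = abelMean r (ε j) - ε j * ∑' i, (1 - ε j) ^ (i + n) * r (i + n) := by
    unfold bb abelMean
    rw [← hsplit]; ring
  have hg : HasSum (fun i => (1 - ε j) ^ i * ((1 - ε j) ^ n * M)) ((ε j)⁻¹ * ((1 - ε j) ^ n * M)) := by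
    have := (hasSum_geometric_of_lt_one (h.tpos j).le (by linarith [h.pos j])).mul_right
      ((1 - ε j) ^ n * M)
    simpa using this
  have h2 : |∑' i, (1 - ε j) ^ (i + n) * r (i + n)| ≤ (ε j)⁻¹ * ((1 - ε j) ^ n * M) := by
    rw [← Real.norm_eq_abs]
    refine tsum_of_norm_bounded hg (fun i => ?_)
    rw [Real.norm_eq_abs, abs_mul, abs_of_pos (pow_pos (h.tpos j) _), pow_add, mul_assoc]
    have := pow_pos (h.tpos j) i
    have := pow_pos (h.tpos j) n
    have := hr (i + n)
    gcongr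
  rw [h1]
  refine (abs_sub _ _).trans ?_
  rw [abs_mul, abs_of_pos (h.pos j)]
  have h3 : ε j * |∑' i, (1 - ε j) ^ (i + n) * r (i + n)|
      ≤ ε j * ((ε j)⁻¹ * ((1 - ε j) ^ n * M)) := mul_le_mul_of_nonneg_left h2 (h.pos j).le
  have h4 : ε j * ((ε j)⁻¹ * ((1 - ε j) ^ n * M)) = M * (1 - ε j) ^ n := by
    have := (h.pos j).ne'
    field_simp
  linarith

include h in
/-- The convex combination of the two bounds. -/
lemma Lac.bb_combined {r : ℕ → ℝ} {M : ℝ} (hr : ∀ i, |r i| ≤ M) (j n : ℕ) :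
    |bb ε r j n| ≤ |abelMean r (ε j)| * (1 - (1 - ε j) ^ n)
      + 2 * M * ((1 - ε j) ^ n * (1 - (1 - ε j) ^ n)) := by
  have h1 := h.bb_le hr j n
  have h2 := h.bb_sub_le hr j n
  have h3 := h.tle j n
  have h4 := pow_pos (h.tpos j) n
  generalize (1 - ε j) ^ n = u at *
  generalize |bb ε r j n| = b at *
  have e : b = (1 - u) * b + u * b := by ring
  calc b = (1 - u) * b + u * b := e
    _ ≤ (1 - u) * (|abelMean r (ε j)| + M * u) + u * (M * (1 - u)) := by
        have : 0 ≤ 1 - u := by linarith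
        gcongr
    _ = _ := by ring

/-- The telescoping potential. -/
noncomputable def phi (x : ℝ) : ℝ := 6 * x / (1 + x)

lemma phi_mono {x y : ℝ} (hx : 0 ≤ x) (hxy : x ≤ y) : phi x ≤ phi y := by
  unfold phi
  rw [div_le_div_iff₀ (by linarith) (by linarith)]
  nlinarith

lemma phi_step {x : ℝ} (hx : 0 < x) {u : ℝ} (hu0 : 0 ≤ u) (hu1 : u ≤ 1) (h1 : 1 - u ≤ x)
    (h2 : u * x ≤ 1) : u * (1 - u) ≤ phi x - phi (x / 2) := by
  have e : phi x - phi (x / 2) = 6 * x / ((1 + x) * (2 + x)) := by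
    unfold phi; field_simp; ring
  rw [e, le_div_iff₀ (by positivity)]
  rcases le_total x 1 with hx1 | hx1
  · have : u * (1 - u) ≤ x := by nlinarith
    calc u * (1 - u) * ((1 + x) * (2 + x)) ≤ x * ((1 + 1) * (2 + 1)) := by gcongr
      _ = 6 * x := by ring
  · have h3 : u * (1 - u) * x ≤ 1 := by nlinarith
    have h4 : 0 ≤ u * (1 - u) := mul_nonneg hu0 (by linarith)
    calc u * (1 - u) * ((1 + x) * (2 + x)) ≤ u * (1 - u) * ((x + x) * (2 * x + x)) := by
          gcongr
          linarith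
      _ = 6 * x * (u * (1 - u) * x) := by ring
      _ ≤ 6 * x * 1 := by gcongr
      _ = 6 * x := by ring

include h in
lemma Lac.step_bound (j n : ℕ) (hn : 0 < n) :
    (1 - ε j) ^ n * (1 - (1 - ε j) ^ n) ≤ phi (n * ε j) - phi (n * ε (j + 1)) := by
  have hn' : (0 : ℝ) < n := by exact_mod_cast hn
  have hx : 0 < n * ε j := mul_pos hn' (h.pos j)
  have hb := one_add_mul_le_pow (a := -ε j) (by linarith [h.lt_one j]) n
  have hb' : 1 - (n : ℝ) * ε j ≤ (1 - ε j) ^ n := by
    have : (1 + -ε j) ^ n = (1 - ε j) ^ n := by ring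
    rw [this] at hb; linarith
  have hu : (1 - ε j) ^ n * (n * ε j) ≤ 1 := by
    -- `(1 - e)^n ≤ 1 / (1 + e)^n ≤ 1 / (1 + n e)`
    have h1 := one_add_mul_le_pow (a := ε j) (by linarith [h.pos j]) n
    have h2 : (1 - ε j) ^ n * (1 + ε j) ^ n ≤ 1 := by
      rw [← mul_pow]
      apply pow_le_one₀
      · have := h.pos j; have := h.tpos j; positivity
      · nlinarith [h.pos j]
    have h3 : 0 < (1 - ε j) ^ n := pow_pos (h.tpos j) n
    nlinarith
  have h5 := phi_step hx (pow_pos (h.tpos j) n).le (h.tle j n) (by linarith) hu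
  have h6 : phi (n * ε (j + 1)) ≤ phi (n * ε j / 2) := by
    apply phi_mono
    · exact (mul_pos hn' (h.pos _)).le
    · have := h.half j
      nlinarith
  linarith

include h in
/-- The transition terms have bounded sum. -/
lemma Lac.sum_step (n J : ℕ) :
    ∑ j ∈ range J, (1 - ε j) ^ n * (1 - (1 - ε j) ^ n) ≤ 6 := by
  rcases Nat.eq_zero_or_pos n with rfl | hn
  · simp
  · have hn' : (0 : ℝ) < n := by exact_mod_cast hn
    calc ∑ j ∈ range J, (1 - ε j) ^ n * (1 - (1 - ε j) ^ n)
        ≤ ∑ j ∈ range J, (phi (n * ε j) - phi (n * ε (j + 1))) :=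
          sum_le_sum fun j _ => h.step_bound j n hn
      _ = phi (n * ε 0) - phi (n * ε J) := sum_range_sub' (fun j => phi (n * ε j)) J
      _ ≤ 6 := by
          have h1 : 0 ≤ phi (n * ε J) := by
            have := mul_pos hn' (h.pos J)
            unfold phi; positivity
          have h2 : phi (n * ε 0) ≤ 6 := by
            have := mul_pos hn' (h.pos 0)
            unfold phi
            rw [div_le_iff₀ (by linarith)]
            linarith
          linarith

include h in
lemma Lac.summable_D (n : ℕ) : Summable fun j => 1 - (1 - ε j) ^ n := by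
  refine Summable.of_nonneg_of_le (fun j => by linarith [h.tle j n]) (fun j => ?_)
    (h.summable.mul_left (n : ℝ))
  have hb := one_add_mul_le_pow (a := -ε j) (by linarith [h.lt_one j]) n
  have : (1 + -ε j) ^ n = (1 - ε j) ^ n := by ring
  rw [this] at hb; linarith

include h in
lemma Lac.sum_wt (n : ℕ) : ∑ i ∈ range n, wt ε i = ∑' j, (1 - (1 - ε j) ^ n) := by
  unfold wt
  rw [← Summable.tsum_finsetSum (fun i _ => by simpa using h.summable_k 0 i)]
  congr 1
  funext j
  rw [← mul_sum, geom_sum']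

include h in
lemma Lac.sum_wt_mul {r : ℕ → ℝ} (n : ℕ) :
    ∑ i ∈ range n, wt ε i * r i = ∑' j, bb ε r j n := by
  unfold wt
  have : ∀ i, (∑' j, ε j * (1 - ε j) ^ i) * r i = ∑' j, ε j * (1 - ε j) ^ i * r i := by
    intro i; rw [tsum_mul_right]
  simp only [this]
  rw [← Summable.tsum_finsetSum (fun i _ => by
    have := (h.summable_k 0 i).mul_right (r i)
    simpa using this)]
  congr 1
  funext j
  unfold bb
  rw [mul_sum]
  apply sum_congr rfl
  intro i _; ring

include h in
lemma Lac.tendsto_D : Tendsto (fun n => ∑ i ∈ range n, wt ε i) atTop atTop := by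
  simp only [h.sum_wt]
  rw [tendsto_atTop]
  intro b
  obtain ⟨J, hJ⟩ := exists_nat_gt (b + 1)
  -- for each `j < J` eventually `(1 - ε_j)^n ≤ 1 / (J + 1)`
  have hev : ∀ᶠ n : ℕ in atTop, ∀ j ∈ range J, (1 - ε j) ^ n ≤ 1 / (J + 1) := by
    rw [Filter.eventually_all_finset]
    intro j _
    have := tendsto_pow_atTop_nhds_zero_of_lt_one (h.tpos j).le (by linarith [h.pos j])
    exact (this.eventually (gt_mem_nhds (by positivity : (0 : ℝ) < 1 / (J + 1)))).mono
      fun n hn => le_of_lt hn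
  filter_upwards [hev] with n hn
  have h1 : ∑ j ∈ range J, (1 - (1 - ε j) ^ n) ≤ ∑' j, (1 - (1 - ε j) ^ n) :=
    (h.summable_D n).sum_le_tsum _ (fun j _ => by linarith [h.tle j n])
  have h2 : ∑ _j ∈ range J, (1 - 1 / ((J : ℝ) + 1)) ≤ ∑ j ∈ range J, (1 - (1 - ε j) ^ n) :=
    sum_le_sum fun j hj => by linarith [hn j hj]
  rw [sum_const, card_range, nsmul_eq_mul] at h2
  have h3 : (J : ℝ) * (1 - 1 / (J + 1)) ≥ J - 1 := by
    have : (J : ℝ) * (1 / (J + 1)) ≤ 1 := by
      rw [mul_one_div, div_le_one (by positivity)]; linarith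
    linarith
  linarith

include h in
/-- The main estimate: if the Abel means of `r` along `1 - ε_j` tend to zero then the weighted
sums are negligible. -/
lemma Lac.main_zero {r : ℕ → ℝ} {M : ℝ} (hM : 0 < M) (hr : ∀ i, |r i| ≤ M)
    (hA : Tendsto (fun j => abelMean r (ε j)) atTop (𝓝 0)) :
    Tendsto (wmean r (wt ε)) atTop (𝓝 0) := by
  have hshift : Tendsto (fun n : ℕ => ∑ i ∈ range (n + 1), wt ε i) atTop atTop :=
    (h.tendsto_D).comp (tendsto_add_atTop_nat 1)
  rw [Metric.tendsto_atTop]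
  intro δ hδ
  -- beyond `J` the Abel means are at most `δ / 4`
  obtain ⟨J, hJ⟩ := (Metric.tendsto_atTop.mp hA) (δ / 4) (by positivity)
  have hAb : ∀ j, |abelMean r (ε j)| ≤ M := by
    intro j
    have h1 : HasSum (fun i => (1 - ε j) ^ i * M) ((ε j)⁻¹ * M) := by
      have := (hasSum_geometric_of_lt_one (h.tpos j).le (by linarith [h.pos j])).mul_right M
      simpa using this
    have h2 : |∑' i, (1 - ε j) ^ i * r i| ≤ (ε j)⁻¹ * M := by
      rw [← Real.norm_eq_abs]
      refine tsum_of_norm_bounded h1 (fun i => ?_)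
      rw [Real.norm_eq_abs, abs_mul, abs_of_pos (pow_pos (h.tpos j) _)]
      exact mul_le_mul_of_nonneg_left (hr i) (pow_pos (h.tpos j) i).le
    unfold abelMean
    rw [abs_mul, abs_of_pos (h.pos j)]
    calc ε j * |∑' i, (1 - ε j) ^ i * r i| ≤ ε j * ((ε j)⁻¹ * M) :=
          mul_le_mul_of_nonneg_left h2 (h.pos j).le
      _ = M := by have := (h.pos j).ne'; field_simp
  obtain ⟨N, hN⟩ := (tendsto_atTop_atTop.mp hshift) ((M * J + 12 * M) / (δ / 4) + 1)
  refine ⟨N, fun n hn => ?_⟩
  have hD := hN n hn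
  set D := ∑ i ∈ range (n + 1), wt ε i with hDdef
  have hCpos : 0 ≤ (M * J + 12 * M) / (δ / 4) := by positivity
  have hDpos : 0 < D := by linarith
  rw [Real.dist_eq, sub_zero]
  unfold wmean
  rw [← hDdef, abs_div, abs_of_pos hDpos, div_lt_iff₀ hDpos, h.sum_wt_mul]
  -- estimate the sum
  have hbound : ∀ j, |bb ε r j (n + 1)| ≤ (if j < J then M else 0)
      + (δ / 4) * (1 - (1 - ε j) ^ (n + 1))
      + 2 * M * ((1 - ε j) ^ (n + 1) * (1 - (1 - ε j) ^ (n + 1))) := by
    intro j
    have h1 := h.bb_combined hr j (n + 1)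
    have h2 := h.tle j (n + 1)
    have h3 := pow_pos (h.tpos j) (n + 1)
    by_cases hj : j < J
    · simp only [hj, if_true]
      have h4 := hAb j
      have : |abelMean r (ε j)| * (1 - (1 - ε j) ^ (n + 1)) ≤ M := by
        calc |abelMean r (ε j)| * (1 - (1 - ε j) ^ (n + 1)) ≤ M * 1 := by
              apply mul_le_mul h4 (by linarith) (by linarith) hM.le
          _ = M := mul_one M
      have h5 : 0 ≤ (δ / 4) * (1 - (1 - ε j) ^ (n + 1)) :=
        mul_nonneg (by positivity) (by linarith)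
      linarith
    · simp only [hj, if_false]
      have h4 := hJ j (not_lt.mp hj)
      rw [Real.dist_eq, sub_zero] at h4
      have : |abelMean r (ε j)| * (1 - (1 - ε j) ^ (n + 1))
          ≤ (δ / 4) * (1 - (1 - ε j) ^ (n + 1)) :=
        mul_le_mul_of_nonneg_right h4.le (by linarith)
      linarith
  have hfin : ∀ K, ∑ j ∈ range K, |bb ε r j (n + 1)| ≤ M * J + (δ / 4) * D + 12 * M := by
    intro K
    have h1 : ∑ j ∈ range K, (if j < J then M else 0) ≤ M * J := by
      rw [← sum_filter]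
      rw [sum_const, nsmul_eq_mul, mul_comm]
      have : (range K).filter (fun j => j < J) ⊆ range J := by
        intro j hj
        simp only [mem_filter] at hj
        exact mem_range.mpr hj.2
      have h2 : (((range K).filter (fun j => j < J)).card : ℝ) ≤ J := by
        have := card_le_card this
        rw [card_range] at this
        exact_mod_cast this
      exact mul_le_mul_of_nonneg_left h2 hM.le
    have h2 : ∑ j ∈ range K, (1 - (1 - ε j) ^ (n + 1)) ≤ D := by
      rw [hDdef, h.sum_wt]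
      exact (h.summable_D (n + 1)).sum_le_tsum _ (fun j _ => by linarith [h.tle j (n + 1)])
    have h3 := h.sum_step (n + 1) K
    calc ∑ j ∈ range K, |bb ε r j (n + 1)|
        ≤ ∑ j ∈ range K, ((if j < J then M else 0)
      + (δ / 4) * (1 - (1 - ε j) ^ (n + 1))
      + 2 * M * ((1 - ε j) ^ (n + 1) * (1 - (1 - ε j) ^ (n + 1)))) :=
          sum_le_sum fun j _ => hbound j
      _ = ∑ j ∈ range K, (if j < J then M else 0)
          + (δ / 4) * ∑ j ∈ range K, (1 - (1 - ε j) ^ (n + 1))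
          + 2 * M * ∑ j ∈ range K, ((1 - ε j) ^ (n + 1) * (1 - (1 - ε j) ^ (n + 1))) := by
          rw [sum_add_distrib, sum_add_distrib, mul_sum, mul_sum]
      _ ≤ M * J + (δ / 4) * D + 2 * M * 6 := by gcongr
      _ = _ := by ring
  have hsummable : Summable fun j => |bb ε r j (n + 1)| :=
    summable_of_sum_range_le (fun j => abs_nonneg _) hfin
  have h1 : |∑' j, bb ε r j (n + 1)| ≤ ∑' j, |bb ε r j (n + 1)| := by
    have := norm_tsum_le_tsum_norm (f := fun j => bb ε r j (n + 1)) (by simpa using hsummable)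
    simpa using this
  have h2 : ∑' j, |bb ε r j (n + 1)| ≤ M * J + (δ / 4) * D + 12 * M :=
    Real.tsum_le_of_sum_range_le (fun j => abs_nonneg _) hfin
  have h3 : M * J + 12 * M ≤ (δ / 4) * D := by
    have : (M * J + 12 * M) / (δ / 4) ≤ D := by linarith
    rw [div_le_iff₀ (by positivity)] at this
    linarith
  have : 0 < δ * D := by positivity
  linarith

include h in
/-- Main lemma: Abel means of `s` along `1 - ε_j` tend to `c`, then so do the weighted means. -/
theorem Lac.main {s : ℕ → ℝ} {M : ℝ} (hs : ∀ i, |s i| ≤ M) {c : ℝ}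
    (hA : Tendsto (fun j => abelMean s (ε j)) atTop (𝓝 c)) :
    AdmissibleWithLimit s (wt ε) c ∧ FullyMonotonic (wt ε) := by
  refine ⟨⟨h.wt_pos, h.tendsto_D, ?_⟩, h.fullyMonotonic⟩
  set r : ℕ → ℝ := fun i => s i - c with hrdef
  have hM : 0 ≤ M := (abs_nonneg _).trans (hs 0)
  have hr : ∀ i, |r i| ≤ M + |c| + 1 := by
    intro i
    have := abs_sub (s i) c
    have := hs i
    simp only [hrdef]
    linarith
  have habel : ∀ j, abelMean r (ε j) = abelMean s (ε j) - c := by
    intro j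
    unfold abelMean
    have h1 := h.summable_r hs j
    have h2 : Summable fun i => (1 - ε j) ^ i * c := h.summable_r (M := |c|) (fun _ => le_rfl) j
    have e : (fun i => (1 - ε j) ^ i * r i)
        = fun i => (1 - ε j) ^ i * s i - (1 - ε j) ^ i * c := by
      funext i; rw [hrdef]; ring
    rw [e, h1.tsum_sub h2, tsum_mul_right,
      tsum_geometric_of_lt_one (h.tpos j).le (by linarith [h.pos j])]
    have hne := (h.pos j).ne'
    have e2 : (1 - (1 - ε j))⁻¹ * c = (ε j)⁻¹ * c := by rw [sub_sub_cancel]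
    rw [e2, mul_sub, ← mul_assoc (ε j) (ε j)⁻¹ c, mul_inv_cancel₀ hne, one_mul]
  have h0 := h.main_zero (r := r) (M := M + |c| + 1) (by positivity) hr (by
    simp only [habel]
    simpa using hA.sub_const c)
  have hw : ∀ n, wmean s (wt ε) n = wmean r (wt ε) n + c := by
    intro n
    unfold wmean
    have hpos : 0 < ∑ i ∈ range (n + 1), wt ε i :=
      sum_pos (fun i _ => h.wt_pos i) ⟨0, by simp⟩
    have e : ∑ i ∈ range (n + 1), wt ε i * r i
        = ∑ i ∈ range (n + 1), wt ε i * s i - (∑ i ∈ range (n + 1), wt ε i) * c := by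
      rw [sum_mul, ← sum_sub_distrib]
      apply sum_congr rfl; intro i _; rw [hrdef]; ring
    rw [e]
    field_simp
    ring
  have h1 := h0.add_const c
  rw [zero_add] at h1
  exact h1.congr (fun n => (hw n).symm)

end Pool.Agent.Q161.WMeans
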